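import Pool.Agent.P8H48.DC.Stm2

/-!
# Project DC (helper48), package FFC: the cover is finite and free
-/

set_option autoImplicit false

namespace Pool.Agent.P8H20.DC

open Polynomial Pool.Agent.P8H48.DC Pool.Agent.P8H48.FR

/-- an algebra given by one monic equation with derivative `-1` is etale (after `P8H40.FR.Trk`) -/
lemma etale_adjoinRoot {A : Type} [CommRing A] (Φ : A[X]) (hm : Φ.Monic) (hd : derivative Φ = -1) :
    Algebra.Etale A (AdjoinRoot Φ) := by
  let P : StandardEtalePair A := ⟨Φ, hm, 1, ⟨-1, 0, 1, by rw [hd]; simp⟩⟩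
  have hmap : P.HasMap (AdjoinRoot.root Φ) := by
    refine ⟨?_, ?_⟩
    · show aeval (AdjoinRoot.root Φ) Φ = 0
      rw [AdjoinRoot.aeval_eq, AdjoinRoot.mk_self]
    · show IsUnit (aeval (AdjoinRoot.root Φ) (1 : A[X]))
      rw [map_one]
      exact isUnit_one
  let F : P.Ring →ₐ[A] AdjoinRoot Φ := P.lift (AdjoinRoot.root Φ) hmap
  let G : AdjoinRoot Φ →ₐ[A] P.Ring := AdjoinRoot.liftAlgHom Φ (Algebra.ofId A P.Ring) P.X P.hasMap_X.1
  have h1 : F.comp G = AlgHom.id A (AdjoinRoot Φ) := by
    apply AdjoinRoot.algHom_ext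
    show F (G (AdjoinRoot.root Φ)) = AdjoinRoot.root Φ
    have h2 : G (AdjoinRoot.root Φ) = P.X := AdjoinRoot.liftAlgHom_root ..
    rw [h2]
    exact P.lift_X _ hmap
  have h3 : G.comp F = AlgHom.id A P.Ring := by
    apply P.hom_ext
    show G (F P.X) = P.X
    have h2 : F P.X = AdjoinRoot.root Φ := P.lift_X _ hmap
    rw [h2]
    exact AdjoinRoot.liftAlgHom_root ..
  exact Algebra.Etale.of_equiv (AlgEquiv.ofAlgHom F G h1 h3)

section

variable {R A : Type} [CommRing R] [CommRing A] [Algebra R A] (S : Finset R) (f : A)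

/-- the equation over `A[t]` -/
noncomputable def Geq : A[X][X] := ∏ c ∈ S, (X - C (C (algebraMap R A c))) - C (X * C f)

lemma Geq_monic (hS : S.Nonempty) : (Geq S f).Monic := by
  nontriviality A
  unfold Geq
  have h1 : (∏ c ∈ S, (X - C (C (algebraMap R A c))) : A[X][X]).Monic :=
    monic_prod_of_monic _ _ fun c _ => monic_X_sub_C _
  refine h1.sub_of_left ?_
  have h2 : (∏ c ∈ S, (X - C (C (algebraMap R A c))) : A[X][X]).natDegree = S.card := by
    rw [natDegree_prod_of_monic _ _ fun c _ => monic_X_sub_C _]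
    simp
  rw [degree_eq_natDegree h1.ne_zero, h2]
  refine lt_of_le_of_lt degree_C_le ?_
  exact_mod_cast hS.card_pos

lemma Geq_natDegree [Nontrivial A] : (Geq S f).natDegree = S.card := by
  unfold Geq
  rw [natDegree_sub_C, natDegree_prod_of_monic _ _ fun c _ => monic_X_sub_C _]
  simp

/-- the structure map -/
noncomputable abbrev st : A[X] →+* Cov S f :=
  (Polynomial.aeval (R := A) (Ideal.Quotient.mk (Ideal.span {eqn S f}) (MvPolynomial.X 0))).toRingHom

lemma st_C (a : A) : st S f (C a) = Ideal.Quotient.mk _ (MvPolynomial.C a) := by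
  change Polynomial.aeval _ (C a) = _
  rw [Polynomial.aeval_C]
  rfl

lemma st_X : st S f X = Ideal.Quotient.mk _ (MvPolynomial.X 0) := by
  change Polynomial.aeval _ X = _
  rw [Polynomial.aeval_X]

lemma map_eqn {B : Type} [CommRing B] (φ : MvPolynomial (Fin 2) A →+* B) : φ (eqn S f) =
    ∏ c ∈ S, (φ (MvPolynomial.X 1) - φ (MvPolynomial.C (algebraMap R A c))) -
      φ (MvPolynomial.X 0) * φ (MvPolynomial.C f) := by
  unfold eqn
  rw [map_sub, map_prod, map_mul]
  simp only [map_sub]

lemma map_Geq {B : Type} [CommRing B] (φ : A[X][X] →+* B) : φ (Geq S f) =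
    ∏ c ∈ S, (φ X - φ (C (C (algebraMap R A c)))) - φ (C (X * C f)) := by
  unfold Geq
  rw [map_sub, map_prod]
  simp only [map_sub]

lemma eval_Geq : eval₂ (st S f) (Ideal.Quotient.mk (Ideal.span {eqn S f}) (MvPolynomial.X 1)) (Geq S f) = 0 := by
  have h1 : (Ideal.Quotient.mk (Ideal.span {eqn S f})) (eqn S f) = 0 :=
    Ideal.Quotient.eq_zero_iff_mem.2 (Ideal.subset_span rfl)
  rw [← h1, map_eqn]
  have h2 := map_Geq S f (eval₂RingHom (st S f) (Ideal.Quotient.mk (Ideal.span {eqn S f}) (MvPolynomial.X 1)))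
  rw [coe_eval₂RingHom] at h2
  rw [h2, eval₂_X, eval₂_C, map_mul, st_X, st_C]
  congr 1
  refine Finset.prod_congr rfl fun c _ => ?_
  rw [eval₂_C, st_C]

/-- the two presentations -/
noncomputable def iso : AdjoinRoot (Geq S f) ≃+* Cov S f := by
  let F : AdjoinRoot (Geq S f) →+* Cov S f := AdjoinRoot.lift (st S f)
    (Ideal.Quotient.mk (Ideal.span {eqn S f}) (MvPolynomial.X 1)) (eval_Geq S f)
  let H0 : MvPolynomial (Fin 2) A →+* AdjoinRoot (Geq S f) := MvPolynomial.eval₂Hom
    ((AdjoinRoot.of (Geq S f)).comp C) ![AdjoinRoot.of (Geq S f) X, AdjoinRoot.root (Geq S f)]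
  have hC : ∀ a, H0 (MvPolynomial.C a) = AdjoinRoot.of (Geq S f) (C a) := fun a =>
    MvPolynomial.eval₂Hom_C _ _ _
  have hX0 : H0 (MvPolynomial.X 0) = AdjoinRoot.of (Geq S f) X := MvPolynomial.eval₂Hom_X' _ _ _
  have hX1 : H0 (MvPolynomial.X 1) = AdjoinRoot.root (Geq S f) := MvPolynomial.eval₂Hom_X' _ _ _
  have hH0 : H0 (eqn S f) = 0 := by
    rw [← AdjoinRoot.mk_self (f := Geq S f), map_eqn, hX0, hX1, hC,
      map_Geq S f (AdjoinRoot.mk (Geq S f)), AdjoinRoot.mk_C, map_mul, AdjoinRoot.mk_X]
    congr 1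
    refine Finset.prod_congr rfl fun c _ => ?_
    rw [hC, AdjoinRoot.mk_C]
  let H : Cov S f →+* AdjoinRoot (Geq S f) := Ideal.Quotient.lift _ H0 (by
    intro x hx
    have : Ideal.span {eqn S f} ≤ RingHom.ker H0 := by
      rw [Ideal.span_le, Set.singleton_subset_iff]
      exact hH0
    exact this hx)
  have hH : ∀ x, H (Ideal.Quotient.mk _ x) = H0 x := fun x => rfl
  refine RingEquiv.ofRingHom F H ?_ ?_
  · apply Ideal.Quotient.ringHom_ext
    apply MvPolynomial.ringHom_ext
    · intro a
      change F (H (Ideal.Quotient.mk _ (MvPolynomial.C a))) = Ideal.Quotient.mk _ (MvPolynomial.C a)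
      rw [hH, hC]
      change AdjoinRoot.lift _ _ _ (AdjoinRoot.of _ (C a)) = _
      rw [AdjoinRoot.lift_of, st_C]
    · intro i
      change F (H (Ideal.Quotient.mk _ (MvPolynomial.X i))) = Ideal.Quotient.mk _ (MvPolynomial.X i)
      rw [hH]
      fin_cases i
      · change F (H0 (MvPolynomial.X 0)) = Ideal.Quotient.mk _ (MvPolynomial.X 0)
        rw [hX0]
        change AdjoinRoot.lift _ _ _ (AdjoinRoot.of _ X) = _
        rw [AdjoinRoot.lift_of, st_X]
      · change F (H0 (MvPolynomial.X 1)) = Ideal.Quotient.mk _ (MvPolynomial.X 1)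
        rw [hX1]
        change AdjoinRoot.lift _ _ _ (AdjoinRoot.root _) = _
        rw [AdjoinRoot.lift_root]
  · apply Ideal.Quotient.ringHom_ext
    apply Polynomial.ringHom_ext'
    · apply Polynomial.ringHom_ext'
      · ext a
        change H (F (AdjoinRoot.of _ (C a))) = AdjoinRoot.of _ (C a)
        have : F (AdjoinRoot.of _ (C a)) = st S f (C a) := AdjoinRoot.lift_of _
        rw [this, st_C, hH, hC]
      · change H (F (AdjoinRoot.of _ X)) = AdjoinRoot.of _ X
        have : F (AdjoinRoot.of _ X) = st S f X := AdjoinRoot.lift_of _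
        rw [this, st_X, hH, hX0]
    · change H (F (AdjoinRoot.root _)) = AdjoinRoot.root _
      have : F (AdjoinRoot.root _) = Ideal.Quotient.mk _ (MvPolynomial.X 1) := AdjoinRoot.lift_root _
      rw [this, hH, hX1]

lemma iso_of (a : A[X]) : iso S f (AdjoinRoot.of _ a) = st S f a := AdjoinRoot.lift_of (eval_Geq S f)

end

/-- the product over a finite field -/
lemma prod_field (k : Type) [Field k] [Fintype k] :
    ∏ c : k, (X - C c) = (X ^ Fintype.card k - X : k[X]) := by
  have hm : (X ^ Fintype.card k - X : k[X]).Monic := by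
    apply monic_X_pow_sub
    rw [degree_X]
    exact_mod_cast Fintype.one_lt_card
  have h1 := prod_multiset_X_sub_C_of_monic_of_roots_card_eq hm (by
    rw [FiniteField.roots_X_pow_card_sub_X, FiniteField.X_pow_card_sub_X_natDegree_eq k Fintype.one_lt_card]
    rfl)
  rw [FiniteField.roots_X_pow_card_sub_X] at h1
  exact h1

lemma prod_alg (k : Type) [Field k] [Fintype k] (B : Type) [CommRing B] [Algebra k B] (x : B) :
    ∏ c : k, (x - algebraMap k B c) = x ^ Fintype.card k - x := by
  have h := congrArg (aeval x) (prod_field k)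
  rw [map_prod, map_sub, map_pow, aeval_X] at h
  rw [← h]
  refine Finset.prod_congr rfl fun c _ => ?_
  rw [map_sub, aeval_X, aeval_C]

theorem ffc : S_FFC := by
  constructor
  · intro R A _ _ _ S f hS
    letI := (st S f).toAlgebra
    have hm := Geq_monic S f hS
    have hfin := hm.finite_adjoinRoot
    have hfree := hm.free_adjoinRoot
    let e' : AdjoinRoot (Geq S f) ≃ₐ[A[X]] Cov S f :=
      AlgEquiv.ofRingEquiv (f := iso S f) (fun a => iso_of S f a)
    refine ⟨Module.Finite.equiv e'.toLinearEquiv, Module.Free.of_equiv e'.toLinearEquiv, fun hA => ?_⟩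
    rw [← LinearEquiv.finrank_eq e'.toLinearEquiv, (AdjoinRoot.powerBasis' hm).finrank,
      AdjoinRoot.powerBasis'_dim, Geq_natDegree]
  · intro k A _ _ _ _ f
    constructor
    · unfold eqn
      rw [← prod_alg k (MvPolynomial (Fin 2) A) (MvPolynomial.X 1)]
      rfl
    · have hm := Geq_monic (Finset.univ : Finset k) f Finset.univ_nonempty
      have hG : Geq (Finset.univ : Finset k) f = X ^ Fintype.card k - X - C (X * C f) := by
        unfold Geq
        rw [← prod_alg k A[X][X] X]
        rfl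
      have hq : ((Fintype.card k : ℕ) : A[X]) = 0 := by
        have h1 : ((Fintype.card k : ℕ) : k) = 0 := FiniteField.cast_card_eq_zero k
        have h2 := congrArg (algebraMap k A[X]) h1
        rwa [map_natCast, map_zero] at h2
      have hd : derivative (Geq (Finset.univ : Finset k) f) = -1 := by
        rw [hG, derivative_sub, derivative_sub, derivative_X_pow, derivative_X, derivative_C, hq]
        simp
      letI := (st (Finset.univ : Finset k) f).toAlgebra
      have hfin := hm.finite_adjoinRoot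
      have hfree := hm.free_adjoinRoot
      have het := etale_adjoinRoot _ hm hd
      let e' : AdjoinRoot (Geq (Finset.univ : Finset k) f) ≃ₐ[A[X]] Cov (Finset.univ : Finset k) f :=
        AlgEquiv.ofRingEquiv (f := iso _ f) (fun a => iso_of _ f a)
      exact ⟨Module.Finite.equiv e'.toLinearEquiv, Module.Free.of_equiv e'.toLinearEquiv,
        Algebra.Etale.of_equiv e'⟩

end Pool.Agent.P8H20.DC
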